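import Pool.Agent.Y301.RY.Pad

set_option autoImplicit false

open Filter Topology
open Pool.Agent.Results.MP_737f38_pr.CriticalValueOne

namespace Pool.Agent.Y301.RY

/-! ### One variable, orders in `(1, 2]` -/

/-- a function `f` with `f f'' ≥ f'^2` on `(0,1)`: `log f` is convex on `[0,1]` -/
theorem logconvex {f f1 f2 : ℝ → ℝ} (hc : ContinuousOn f (Set.Icc 0 1))
    (hpos : ∀ x ∈ Set.Icc (0:ℝ) 1, 0 < f x)
    (h1 : ∀ x ∈ Set.Ioo (0:ℝ) 1, HasDerivAt f (f1 x) x)
    (h2 : ∀ x ∈ Set.Ioo (0:ℝ) 1, HasDerivAt f1 (f2 x) x)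
    (h : ∀ x ∈ Set.Ioo (0:ℝ) 1, f1 x ^ 2 ≤ f2 x * f x) :
    ConvexOn ℝ (Set.Icc (0:ℝ) 1) (fun x => Real.log (f x)) := by
  have hint : interior (Set.Icc (0:ℝ) 1) = Set.Ioo 0 1 := interior_Icc
  have hd : ∀ x ∈ Set.Ioo (0:ℝ) 1, HasDerivAt (fun x => Real.log (f x)) (f1 x / f x) x :=
    fun x hx => (h1 x hx).log (hpos x (Set.Ioo_subset_Icc_self hx)).ne'
  have hd2 : ∀ x ∈ Set.Ioo (0:ℝ) 1, HasDerivAt (deriv fun x => Real.log (f x))
      ((f2 x * f x - f1 x * f1 x) / f x ^ 2) x := by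
    intro x hx
    have h3 := (h2 x hx).div (h1 x hx) (hpos x (Set.Ioo_subset_Icc_self hx)).ne'
    refine h3.congr_of_eventuallyEq ?_
    filter_upwards [isOpen_Ioo.mem_nhds hx] with y hy
    exact (hd y hy).deriv
  apply convexOn_of_deriv2_nonneg (convex_Icc 0 1)
  · exact hc.log (fun x hx => (hpos x hx).ne')
  · rw [hint]
    exact fun x hx => (hd x hx).differentiableAt.differentiableWithinAt
  · rw [hint]
    exact fun x hx => (hd2 x hx).differentiableAt.differentiableWithinAt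
  · rw [hint]
    intro x hx
    rw [Function.iterate_succ, Function.iterate_one, Function.comp_apply, (hd2 x hx).deriv]
    apply div_nonneg _ (sq_nonneg _)
    nlinarith [h x hx]

lemma key_ineq {q x y : ℝ} (hq : 1 < q) (hq2 : q ≤ 2) (hx : 0 < x) (hy : 0 < y) :
    (q * (x ^ (q - 1) - y ^ (q - 1))) ^ 2
      ≤ (q * (q - 1) * (x ^ (q - 2) + y ^ (q - 2))) * (x ^ q + y ^ q) := by
  have hs0 : 0 ≤ q - 1 := by linarith
  have hs1 : 0 ≤ 1 - (q - 1) := by linarith
  have a1 : x ^ (q - 2) = x ^ (q - 1) / x := by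
    rw [show q - 2 = (q - 1) - 1 by ring, Real.rpow_sub_one hx.ne']
  have a2 : y ^ (q - 2) = y ^ (q - 1) / y := by
    rw [show q - 2 = (q - 1) - 1 by ring, Real.rpow_sub_one hy.ne']
  have a3 : x ^ q = x ^ (q - 1) * x := by
    rw [Real.rpow_sub_one hx.ne']; field_simp
  have a4 : y ^ q = y ^ (q - 1) * y := by
    rw [Real.rpow_sub_one hy.ne']; field_simp
  have b1 := Real.geom_mean_le_arith_mean2_weighted hs0 hs1 hx.le hy.le (by ring)
  have b2 := Real.geom_mean_le_arith_mean2_weighted hs0 hs1 hy.le hx.le (by ring)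
  have c1 : y ^ (1 - (q - 1)) * y ^ (q - 1) = y := by
    rw [← Real.rpow_add hy]; simp
  have c2 : x ^ (1 - (q - 1)) * x ^ (q - 1) = x := by
    rw [← Real.rpow_add hx]; simp
  have hU : 0 < x ^ (q - 1) := Real.rpow_pos_of_pos hx _
  have hV : 0 < y ^ (q - 1) := Real.rpow_pos_of_pos hy _
  rw [a1, a2, a3, a4]
  generalize x ^ (q - 1) = U at *
  generalize y ^ (q - 1) = V at *
  have d1 : U * y ≤ V * ((q - 1) * x + (1 - (q - 1)) * y) := by
    calc U * y = (U * y ^ (1 - (q - 1))) * V := by rw [mul_assoc, c1]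
      _ ≤ ((q - 1) * x + (1 - (q - 1)) * y) * V := mul_le_mul_of_nonneg_right b1 hV.le
      _ = _ := by ring
  have d2 : V * x ≤ U * ((q - 1) * y + (1 - (q - 1)) * x) := by
    calc V * x = (V * x ^ (1 - (q - 1))) * U := by rw [mul_assoc, c2]
      _ ≤ ((q - 1) * y + (1 - (q - 1)) * x) * U := mul_le_mul_of_nonneg_right b2 hU.le
      _ = _ := by ring
  have e1 := mul_le_mul_of_nonneg_right d1 (mul_pos hU hx).le
  have e2 := mul_le_mul_of_nonneg_right d2 (mul_pos hV hy).le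
  have e3 : 0 ≤ U * V * (x * y) * (4 * (q - 1)) := by positivity
  have main : q * (x * y) * (U - V) ^ 2 ≤ (q - 1) * ((U * y + V * x) * (U * x + V * y)) := by
    nlinarith
  have e4 : (q * (q - 1) * (U / x + V / y)) * (U * x + V * y)
      = q * ((q - 1) * ((U * y + V * x) * (U * x + V * y))) / (x * y) := by
    field_simp
  rw [e4, le_div_iff₀ (mul_pos hx hy)]
  nlinarith

/-- `p ↦ log (p^q + (1-p)^q)` is convex on `[0,1]` for `1 < q ≤ 2`. -/
theorem binary_convex {q : ℝ} (hq : 1 < q) (hq2 : q ≤ 2) :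
    ConvexOn ℝ (Set.Icc (0:ℝ) 1) (fun x => Real.log ((1 - x) ^ q + x ^ q)) := by
  apply logconvex (f1 := fun x => q * (x ^ (q - 1) - (1 - x) ^ (q - 1)))
    (f2 := fun x => q * (q - 1) * (x ^ (q - 2) + (1 - x) ^ (q - 2)))
  · apply Continuous.continuousOn
    refine Continuous.add ?_ ?_
    · exact Continuous.rpow_const (by fun_prop) (fun x => Or.inr (by linarith))
    · exact Continuous.rpow_const (by fun_prop) (fun x => Or.inr (by linarith))
  · intro x hx
    rcases hx.1.eq_or_lt with h | h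
    · rw [← h]; simp [Real.zero_rpow (show q ≠ 0 by linarith)]
    · have h1 := Real.rpow_pos_of_pos h q
      have h2 := Real.rpow_nonneg (sub_nonneg.2 hx.2) q
      linarith
  · intro x hx
    have h3 : HasDerivAt (fun x : ℝ => 1 - x) (-1) x := by
      simpa using (hasDerivAt_id x).const_sub 1
    have h1 := h3.rpow_const (p := q) (Or.inl (by linarith [hx.2] : (1 - x) ≠ 0))
    have h2 := (hasDerivAt_id x).rpow_const (p := q) (Or.inl hx.1.ne')
    refine (h1.add h2).congr_deriv ?_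
    simp only [id]
    ring
  · intro x hx
    have h3 : HasDerivAt (fun x : ℝ => 1 - x) (-1) x := by
      simpa using (hasDerivAt_id x).const_sub 1
    have h1 := h3.rpow_const (p := q - 1) (Or.inl (by linarith [hx.2] : (1 - x) ≠ 0))
    have h2 := (hasDerivAt_id x).rpow_const (p := q - 1) (Or.inl hx.1.ne')
    refine ((h2.sub h1).const_mul q).congr_deriv ?_
    simp only [id]
    rw [show q - 1 - 1 = q - 2 by ring]
    ring
  · intro x hx
    have := key_ineq hq hq2 hx.1 (sub_pos.2 hx.2)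
    rw [add_comm ((1 - x) ^ q)]
    exact this

lemma bernSum_single (p : Fin 1 → ℝ) : bernSum p 0 = 1 - p 0 ∧ bernSum p 1 = p 0 := by
  constructor
  · rw [bernSum_coeff]; simp
  · rw [bernSum_coeff]; simp [Polynomial.coeff_one]

theorem phi_one_concave {q : ℝ} (hq : 1 < q) (hq2 : q ≤ 2) (p0 p1 : Fin 1 → ℝ)
    (h0 : ∀ i, p0 i ∈ Set.Icc (0:ℝ) 1) (h1 : ∀ i, p1 i ∈ Set.Icc (0:ℝ) 1) :
    ConcaveOn ℝ (Set.Icc (0:ℝ) 1) (phi q p0 p1) := by
  have hphi : ∀ t, phi q p0 p1 t = (1 / (1 - q)) *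
      Real.log ((1 - path p0 p1 t 0) ^ q + (path p0 p1 t 0) ^ q) := by
    intro t
    unfold phi renyi
    rw [if_neg (by linarith), Finset.sum_range_succ, Finset.sum_range_one,
      (bernSum_single _).1, (bernSum_single _).2]
  have hin : ∀ t ∈ Set.Icc (0:ℝ) 1, path p0 p1 t 0 ∈ Set.Icc (0:ℝ) 1 := by
    intro t ht
    have := convex_Icc (0:ℝ) 1 (h0 0) (h1 0) (show 0 ≤ 1 - t by linarith [ht.2]) ht.1 (by ring)
    simpa [path] using this
  refine ⟨convex_Icc _ _, ?_⟩
  intro x hx y hy a b ha hb hab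
  have h := (binary_convex hq hq2).2 (hin x hx) (hin y hy) ha hb hab
  have e : a • path p0 p1 x 0 + b • path p0 p1 y 0 = path p0 p1 (a • x + b • y) 0 := by
    simp only [path, smul_eq_mul]
    have : a = 1 - b := by linarith
    rw [this]; ring
  rw [e] at h
  rw [hphi, hphi, hphi]
  simp only [smul_eq_mul] at h ⊢
  have h1q : 1 / (1 - q) ≤ 0 := by
    apply div_nonpos_of_nonneg_of_nonpos zero_le_one; linarith
  nlinarith [mul_le_mul_of_nonpos_left h h1q]

end Pool.Agent.Y301.RY
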