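import Pool.Agent.Y301.RY.Pad

set_option autoImplicit false

open Filter Topology
open Pool.Agent.Results.MP_737f38_pr.CriticalValueOne

namespace Pool.Agent.Y301.RY

/-! ### Binomial laws, orders above two -/

lemma bernSum_const (m : ℕ) (x : ℝ) (k : ℕ) :
    bernSum (fun _ : Fin m => x) k = (m.choose k : ℝ) * (x ^ k * (1 - x) ^ (m - k)) := by
  unfold bernSum
  have h : ∀ A ∈ (Finset.univ : Finset (Fin m)).powersetCard k,
      ((∏ _i ∈ A, x) * ∏ _i ∈ Aᶜ, (1 - x)) = x ^ k * (1 - x) ^ (m - k) := by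
    intro A hA
    have hc : A.card = k := (Finset.mem_powersetCard.1 hA).2
    rw [Finset.prod_const, Finset.prod_const, Finset.card_compl, Fintype.card_fin, hc]
  rw [Finset.sum_congr rfl h, Finset.sum_const, Finset.card_powersetCard, Finset.card_univ,
    Fintype.card_fin, nsmul_eq_mul]

/-- `∑ k, B_{m,x}(k)^q` near `x = 0`. -/
noncomputable def FF (q : ℝ) (m : ℕ) (x : ℝ) : ℝ :=
  (1 - x) ^ ((m : ℝ) * q) + ∑ k ∈ Finset.range m, (m.choose (k + 1) : ℝ) ^ q *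
    (x ^ (((k + 1 : ℕ) : ℝ) * q) * (1 - x) ^ (((m - (k + 1) : ℕ) : ℝ) * q))

lemma FF_eq (q : ℝ) (m : ℕ) {x : ℝ} (h0 : 0 ≤ x) (h1 : x ≤ 1) :
    ∑ k ∈ Finset.range (m + 1), bernSum (fun _ : Fin m => x) k ^ q = FF q m x := by
  have hx : 0 ≤ 1 - x := by linarith
  have key : ∀ k, k ≤ m → bernSum (fun _ : Fin m => x) k ^ q
      = (m.choose k : ℝ) ^ q * (x ^ ((k : ℝ) * q) * (1 - x) ^ (((m - k : ℕ) : ℝ) * q)) := by
    intro k hk
    rw [bernSum_const m x k, Real.mul_rpow (by positivity) (by positivity),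
      Real.mul_rpow (by positivity) (by positivity), ← Real.rpow_natCast_mul h0,
      ← Real.rpow_natCast_mul hx]
  rw [Finset.sum_range_succ', add_comm, FF]
  congr 1
  · rw [key 0 (Nat.zero_le _)]
    simp
  · refine Finset.sum_congr rfl fun k hk => ?_
    rw [key (k + 1) (by have := Finset.mem_range.1 hk; omega)]

lemma hasDerivAt_term (c s r x : ℝ) (hs : 2 < s) (hx : x < 1) :
    HasDerivAt (fun x : ℝ => c * (x ^ s * (1 - x) ^ r))
      (c * (s * x ^ (s - 1) * (1 - x) ^ r - x ^ s * (r * (1 - x) ^ (r - 1)))) x := by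
  have h1 : HasDerivAt (fun x : ℝ => x ^ s) (s * x ^ (s - 1)) x := by
    have := Real.hasDerivAt_rpow_const (x := x) (p := s) (Or.inr (by linarith))
    simpa using this
  have h3 : HasDerivAt (fun x : ℝ => 1 - x) (-1) x := by
    simpa using (hasDerivAt_id x).const_sub 1
  have h2 : HasDerivAt (fun x : ℝ => (1 - x) ^ r) (-(r * (1 - x) ^ (r - 1))) x := by
    have := h3.rpow_const (p := r) (Or.inl (by linarith : (1 - x) ≠ 0))
    convert this using 1; ring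
  refine ((h1.mul h2).const_mul c).congr_deriv ?_
  ring

lemma hasDerivAt_term2 (c s r : ℝ) (hs : 2 < s) :
    HasDerivAt (fun x : ℝ => c * (s * x ^ (s - 1) * (1 - x) ^ r - x ^ s * (r * (1 - x) ^ (r - 1))))
      0 0 := by
  have h1 : HasDerivAt (fun x : ℝ => x ^ s) (s * 0 ^ (s - 1)) 0 := by
    have := Real.hasDerivAt_rpow_const (x := (0:ℝ)) (p := s) (Or.inr (by linarith))
    simpa using this
  have h1' : HasDerivAt (fun x : ℝ => x ^ (s - 1)) ((s - 1) * 0 ^ (s - 1 - 1)) 0 := by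
    have := Real.hasDerivAt_rpow_const (x := (0:ℝ)) (p := s - 1) (Or.inr (by linarith))
    simpa using this
  have h3 : HasDerivAt (fun x : ℝ => 1 - x) (-1) 0 := by
    simpa using (hasDerivAt_id (0:ℝ)).const_sub 1
  have h2 : ∀ r : ℝ, HasDerivAt (fun x : ℝ => (1 - x) ^ r) (-r) 0 := by
    intro r
    have := h3.rpow_const (p := r) (Or.inl (by norm_num))
    simpa using this
  have e1 : (0:ℝ) ^ (s - 1) = 0 := Real.zero_rpow (by linarith)
  have e2 : (0:ℝ) ^ (s - 1 - 1) = 0 := Real.zero_rpow (by linarith)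
  have e3 : (0:ℝ) ^ s = 0 := Real.zero_rpow (by linarith)
  rw [e1, mul_zero] at h1
  rw [e2, mul_zero] at h1'
  have h4 := (((h1'.const_mul s).mul (h2 r)).sub (h1.mul ((h2 (r - 1)).const_mul r))).const_mul c
  refine h4.congr_deriv ?_
  rw [e1, e3]
  ring

/-- the derivative of `FF` -/
noncomputable def FF1 (q : ℝ) (m : ℕ) (x : ℝ) : ℝ :=
  -((m : ℝ) * q * (1 - x) ^ ((m : ℝ) * q - 1)) + ∑ k ∈ Finset.range m,
    (m.choose (k + 1) : ℝ) ^ q *
    ((((k + 1 : ℕ) : ℝ) * q) * x ^ (((k + 1 : ℕ) : ℝ) * q - 1) *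
        (1 - x) ^ (((m - (k + 1) : ℕ) : ℝ) * q)
      - x ^ (((k + 1 : ℕ) : ℝ) * q) *
        ((((m - (k + 1) : ℕ) : ℝ) * q) * (1 - x) ^ (((m - (k + 1) : ℕ) : ℝ) * q - 1)))

lemma two_lt {q : ℝ} (hq : 2 < q) (k : ℕ) : 2 < ((k + 1 : ℕ) : ℝ) * q := by
  push_cast
  have : (0:ℝ) ≤ k := Nat.cast_nonneg k
  nlinarith

lemma FF_deriv {q : ℝ} (hq : 2 < q) (m : ℕ) {x : ℝ} (hx : x < 1) :
    HasDerivAt (FF q m) (FF1 q m x) x := by
  unfold FF1
  have h3 : HasDerivAt (fun x : ℝ => 1 - x) (-1) x := by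
    simpa using (hasDerivAt_id x).const_sub 1
  have h2 : HasDerivAt (fun x : ℝ => (1 - x) ^ ((m : ℝ) * q))
      (-((m : ℝ) * q * (1 - x) ^ ((m : ℝ) * q - 1))) x := by
    have := h3.rpow_const (p := (m : ℝ) * q) (Or.inl (by linarith : (1 - x) ≠ 0))
    convert this using 1; ring
  have h4 := h2.add (HasDerivAt.fun_sum (u := Finset.range m) (fun k _ =>
    hasDerivAt_term ((m.choose (k + 1) : ℝ) ^ q) (((k + 1 : ℕ) : ℝ) * q)
      (((m - (k + 1) : ℕ) : ℝ) * q) x (two_lt hq k) hx))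
  exact h4

lemma FF_deriv2 {q : ℝ} (hq : 2 < q) (m : ℕ) :
    HasDerivAt (FF1 q m) ((m : ℝ) * q * ((m : ℝ) * q - 1)) 0 := by
  have h3 : HasDerivAt (fun x : ℝ => 1 - x) (-1) 0 := by
    simpa using (hasDerivAt_id (0:ℝ)).const_sub 1
  have h2 : HasDerivAt (fun x : ℝ => -((m : ℝ) * q * (1 - x) ^ ((m : ℝ) * q - 1)))
      ((m : ℝ) * q * ((m : ℝ) * q - 1)) 0 := by
    have := ((h3.rpow_const (p := (m : ℝ) * q - 1) (Or.inl (by norm_num))).const_mul
      ((m : ℝ) * q)).neg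
    refine this.congr_deriv ?_
    simp
    ring
  have h4 := h2.add (HasDerivAt.fun_sum (u := Finset.range m) (fun k _ =>
    hasDerivAt_term2 ((m.choose (k + 1) : ℝ) ^ q) (((k + 1 : ℕ) : ℝ) * q)
      (((m - (k + 1) : ℕ) : ℝ) * q) (two_lt hq k)))
  refine h4.congr_deriv ?_
  simp

lemma FF_zero {q : ℝ} (hq : 2 < q) (m : ℕ) : FF q m 0 = 1 := by
  unfold FF
  rw [Finset.sum_eq_zero]
  · simp
  · intro k _
    rw [Real.zero_rpow (by have := two_lt hq k; linarith)]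
    ring

lemma FF1_zero {q : ℝ} (hq : 2 < q) (m : ℕ) : FF1 q m 0 = -((m : ℝ) * q) := by
  unfold FF1
  rw [Finset.sum_eq_zero]
  · simp
  · intro k _
    rw [Real.zero_rpow (by have := two_lt hq k; linarith),
      Real.zero_rpow (by have := two_lt hq k; linarith)]
    ring

lemma FF_contDiff {q : ℝ} (hq : 2 < q) (m : ℕ) : ContDiffAt ℝ 2 (FF q m) 0 := by
  unfold FF
  have h1 : ∀ r : ℝ, ContDiffAt ℝ 2 (fun x : ℝ => (1 - x) ^ r) 0 := by
    intro r
    apply ContDiffAt.rpow_const_of_ne (by fun_prop)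
    simp
  refine (h1 _).add (ContDiffAt.sum fun k _ => contDiffAt_const.mul (ContDiffAt.mul ?_ (h1 _)))
  have h2 : ContDiff ℝ 2 (fun x : ℝ => x ^ (((k + 1 : ℕ) : ℝ) * q)) :=
    Real.contDiff_rpow_const_of_le (n := 2) (by have := two_lt hq k; push_cast at this ⊢; linarith)
  exact h2.contDiffAt

lemma log_second {q : ℝ} (hq : 2 < q) {m : ℕ} (hm : 1 ≤ m) :
    ContDiffAt ℝ 2 (fun x => (1 / (1 - q)) * Real.log (FF q m x)) 0 ∧
      0 < deriv (deriv (fun x => (1 / (1 - q)) * Real.log (FF q m x))) 0 := by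
  have hF := FF_contDiff hq m
  have h0 : FF q m 0 = 1 := FF_zero hq m
  refine ⟨contDiffAt_const.mul (hF.log (by rw [h0]; norm_num)), ?_⟩
  have e1 : ∀ᶠ x in 𝓝 (0:ℝ), 0 < FF q m x :=
    hF.continuousAt.eventually (lt_mem_nhds (by rw [h0]; norm_num))
  have e2 : ∀ᶠ x in 𝓝 (0:ℝ), x < 1 := gt_mem_nhds one_pos
  have h6 : deriv (fun x => (1 / (1 - q)) * Real.log (FF q m x)) =ᶠ[𝓝 0]
      fun x => (1 / (1 - q)) * (FF1 q m x / FF q m x) := by
    filter_upwards [e1, e2] with x hx hx1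
    exact (((FF_deriv hq m hx1).log hx.ne').const_mul _).deriv
  rw [h6.deriv_eq]
  have h7 := (((FF_deriv2 hq m).div (FF_deriv hq m (x := 0) (by norm_num))
    (by rw [h0]; norm_num)).const_mul (1 / (1 - q)))
  have h8 := h7.deriv
  simp only [Pi.div_apply] at h8
  rw [show (fun x => 1 / (1 - q) * (FF1 q m x / FF q m x)) =
    (fun y => 1 / (1 - q) * (FF1 q m y / FF q m y)) from rfl]
  rw [h8, h0, FF1_zero hq m]
  have hm' : (1:ℝ) ≤ m := by exact_mod_cast hm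
  have e : 1 / (1 - q) * (((m : ℝ) * q * ((m : ℝ) * q - 1) * 1 - -((m : ℝ) * q) * -((m : ℝ) * q))
      / 1 ^ 2) = ((m : ℝ) * q) / (q - 1) := by
    have h1 : (1 - q) ≠ 0 := by linarith
    have h2 : (q - 1) ≠ 0 := by linarith
    field_simp
    ring
  rw [e]
  apply div_pos
  · nlinarith
  · linarith

/-- For every `m ≥ 1` and every order `q > 2` the entropy of the binomial law `B_{m,x}` is
strictly convex in `x` on some interval `[0, δ]`. -/
theorem diag_strict {q : ℝ} (hq : 2 < q) {m : ℕ} (hm : 1 ≤ m) :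
    ∃ δ : ℝ, 0 < δ ∧ δ ≤ 1 ∧ StrictConvexOn ℝ (Set.Icc (0:ℝ) 1)
      (phi q (fun _ : Fin m => 0) (fun _ : Fin m => δ)) := by
  obtain ⟨hC, hpos⟩ := log_second hq hm
  obtain ⟨δ0, hδ0, hconv⟩ := aux_convex_near _ hC hpos
  obtain ⟨δ, hδ, hδle, hδ1⟩ : ∃ δ > 0, δ ≤ δ0 ∧ δ ≤ 1 :=
    ⟨min δ0 1, by positivity, min_le_left _ _, min_le_right _ _⟩
  have hsc := hconv δ hδ hδle
  have hphi : ∀ t ∈ Set.Icc (0:ℝ) 1, phi q (fun _ : Fin m => 0) (fun _ : Fin m => δ) t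
      = (1 / (1 - q)) * Real.log (FF q m (δ * t)) := by
    intro t ht
    have hq1 : q ≠ 1 := by linarith
    unfold phi renyi
    rw [if_neg hq1]
    have e : path (fun _ : Fin m => (0:ℝ)) (fun _ : Fin m => δ) t = fun _ => δ * t := by
      funext i; simp [path]; ring
    rw [e, FF_eq q m (by have := ht.1; positivity) (by nlinarith [ht.1, ht.2])]
  refine ⟨δ, hδ, hδ1, convex_Icc _ _, ?_⟩
  intro x hx y hy hxy a b ha hb hab
  have hx' : δ * x ∈ Set.Icc (-δ) δ := by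
    constructor <;> nlinarith [hx.1, hx.2]
  have hy' : δ * y ∈ Set.Icc (-δ) δ := by
    constructor <;> nlinarith [hy.1, hy.2]
  have hne : δ * x ≠ δ * y := fun h => hxy (mul_left_cancel₀ hδ.ne' h)
  have := hsc.2 hx' hy' hne ha hb hab
  have hmem : a • x + b • y ∈ Set.Icc (0:ℝ) 1 := convex_Icc (0:ℝ) 1 hx hy ha.le hb.le hab
  rw [hphi x hx, hphi y hy, hphi _ hmem]
  simp only [smul_eq_mul] at this ⊢
  convert this using 4
  ring

lemma str_diag {q : ℝ} (hq : 2 < q) {m : ℕ} (hm : 1 ≤ m) : Str m q := by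
  obtain ⟨δ, h0, h1, hs⟩ := diag_strict hq hm
  exact ⟨_, _, fun _ => by simp, fun _ => ⟨h0.le, h1⟩, hs⟩

end Pool.Agent.Y301.RY
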