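import Pool.Agent.Y301.RY.Diag

set_option autoImplicit false

open Filter Topology
open Pool.Agent.Results.MP_737f38_pr.CriticalValueOne

namespace Pool.Agent.Y301.RY

/-! ### Parseval for binomial laws -/

noncomputable def om (M : ℕ) : ℂ := Complex.exp (2 * Real.pi * Complex.I / ((2 * M : ℕ) : ℂ))

lemma om_prim {M : ℕ} (hM : 0 < M) : IsPrimitiveRoot (om M) (2 * M) :=
  Complex.isPrimitiveRoot_exp (2 * M) (by omega)

lemma om_half {M : ℕ} (hM : 0 < M) : om M ^ M = -1 := by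
  unfold om
  rw [← Complex.exp_nat_mul]
  have hM' : (M : ℂ) ≠ 0 := by exact_mod_cast hM.ne'
  have : (M : ℂ) * (2 * Real.pi * Complex.I / ((2 * M : ℕ) : ℂ)) = Real.pi * Complex.I := by
    push_cast
    field_simp
  rw [this, Complex.exp_pi_mul_I]

lemma om_norm {M : ℕ} (hM : 0 < M) : ‖om M‖ = 1 :=
  (om_prim hM).norm'_eq_one (by omega)

lemma om_conj {M : ℕ} (hM : 0 < M) : (starRingEnd ℂ) (om M) = (om M)⁻¹ :=
  (Complex.inv_eq_conj (om_norm hM)).symm

lemma orth {M : ℕ} (hM : 0 < M) {k l : ℕ} (hk : k < 2 * M) (hl : l < 2 * M) :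
    ∑ j ∈ Finset.range (2 * M), (om M ^ k * (om M ^ l)⁻¹) ^ j
      = if k = l then ((2 * M : ℕ) : ℂ) else 0 := by
  have h0 : om M ≠ 0 := (om_prim hM).ne_zero (by omega)
  split_ifs with h
  · subst h
    rw [mul_inv_cancel₀ (pow_ne_zero _ h0)]
    simp
  · have hne : om M ^ k * (om M ^ l)⁻¹ ≠ 1 := by
      intro h1
      apply h
      apply (om_prim hM).pow_inj hk hl
      have := mul_inv_eq_one₀ (pow_ne_zero l h0) |>.1 h1
      exact this
    have e : ∀ i : ℕ, (om M ^ i) ^ (2 * M) = 1 := by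
      intro i
      rw [← pow_mul, mul_comm, pow_mul, (om_prim hM).pow_eq_one, one_pow]
    rw [geom_sum_eq hne, mul_pow, inv_pow, e, e]
    simp

lemma parseval {M : ℕ} (hM : 0 < M) (c : ℕ → ℝ) :
    ∑ j ∈ Finset.range (2 * M), ‖∑ k ∈ Finset.range (2 * M), (c k : ℂ) * (om M ^ j) ^ k‖ ^ 2
      = ((2 * M : ℕ) : ℝ) * ∑ k ∈ Finset.range (2 * M), c k ^ 2 := by
  have h0 : om M ≠ 0 := (om_prim hM).ne_zero (by omega)
  have key : (((∑ j ∈ Finset.range (2 * M),
      ‖∑ k ∈ Finset.range (2 * M), (c k : ℂ) * (om M ^ j) ^ k‖ ^ 2 : ℝ)) : ℂ)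
      = ((((2 * M : ℕ) : ℝ) * ∑ k ∈ Finset.range (2 * M), c k ^ 2 : ℝ) : ℂ) := by
    push_cast
    have h1 : ∀ j ∈ Finset.range (2 * M),
        ((‖∑ k ∈ Finset.range (2 * M), (c k : ℂ) * (om M ^ j) ^ k‖ : ℂ)) ^ 2
        = ∑ k ∈ Finset.range (2 * M), ∑ l ∈ Finset.range (2 * M),
          ((c k : ℂ) * c l) * (om M ^ k * (om M ^ l)⁻¹) ^ j := by
      intro j _
      rw [← Complex.mul_conj', map_sum, Finset.sum_mul_sum]
      refine Finset.sum_congr rfl fun k _ => Finset.sum_congr rfl fun l _ => ?_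
      rw [map_mul, map_pow, map_pow, om_conj hM, Complex.conj_ofReal, mul_pow, inv_pow, inv_pow,
        inv_pow]
      rw [← pow_mul, ← pow_mul, ← pow_mul, ← pow_mul, mul_comm j k, mul_comm j l]
      ring
    rw [Finset.sum_congr rfl h1, Finset.sum_comm]
    have h2 : ∀ k ∈ Finset.range (2 * M), ∑ j ∈ Finset.range (2 * M),
        ∑ l ∈ Finset.range (2 * M), ((c k : ℂ) * c l) * (om M ^ k * (om M ^ l)⁻¹) ^ j
        = (2 * M : ℂ) * (c k : ℂ) ^ 2 := by
      intro k hk
      rw [Finset.sum_comm]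
      have h3 : ∀ l ∈ Finset.range (2 * M), ∑ j ∈ Finset.range (2 * M),
          ((c k : ℂ) * c l) * (om M ^ k * (om M ^ l)⁻¹) ^ j
          = if k = l then (2 * M : ℂ) * (c k : ℂ) ^ 2 else 0 := by
        intro l hl
        rw [← Finset.mul_sum, orth hM (Finset.mem_range.1 hk) (Finset.mem_range.1 hl)]
        split_ifs with h
        · subst h; push_cast; ring
        · simp
      rw [Finset.sum_congr rfl h3, Finset.sum_ite_eq, if_pos hk]
    rw [Finset.sum_congr rfl h2, ← Finset.mul_sum]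
  exact_mod_cast key

lemma norm_aux (x : ℝ) (z : ℂ) (hz : ‖z‖ = 1) :
    ‖((1 - x : ℝ) : ℂ) + (x : ℂ) * z‖ ^ 2 = 1 - 2 * (x * (1 - x)) * (1 - z.re) := by
  have h1 : z.re ^ 2 + z.im ^ 2 = 1 := by
    have := Complex.sq_norm z
    rw [hz, Complex.normSq_apply] at this
    linarith
  rw [Complex.sq_norm, Complex.normSq_apply]
  simp only [Complex.add_re, Complex.add_im, Complex.ofReal_re, Complex.ofReal_im, Complex.mul_re,
    Complex.mul_im]
  linear_combination (x ^ 2) * h1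

lemma bernSum_big (m : ℕ) (x : ℝ) {k : ℕ} (hk : m < k) : bernSum (fun _ : Fin m => x) k = 0 := by
  rw [bernSum_const, Nat.choose_eq_zero_of_lt hk]
  simp

lemma gen (m N : ℕ) (hN : m < N) (x : ℝ) (z : ℂ) :
    ∑ k ∈ Finset.range N, ((bernSum (fun _ : Fin m => x) k : ℝ) : ℂ) * z ^ k
      = (((1 - x : ℝ) : ℂ) + (x : ℂ) * z) ^ m := by
  have h1 : ∑ k ∈ Finset.range N, ((bernSum (fun _ : Fin m => x) k : ℝ) : ℂ) * z ^ k
      = ∑ k ∈ Finset.range (m + 1), ((bernSum (fun _ : Fin m => x) k : ℝ) : ℂ) * z ^ k := by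
    symm
    apply Finset.sum_subset
    · intro k hk
      simp only [Finset.mem_range] at hk ⊢
      omega
    · intro k _ hk
      simp only [Finset.mem_range, not_lt] at hk
      rw [bernSum_big m x (by omega)]
      simp
  rw [h1, add_comm ((1 - x : ℝ) : ℂ), add_pow]
  refine Finset.sum_congr rfl fun k _ => ?_
  rw [bernSum_const]
  push_cast
  ring

/-- The collision probability of a binomial law. -/
theorem collision (m : ℕ) (x : ℝ) :
    ((2 * (m + 1) : ℕ) : ℝ) * ∑ k ∈ Finset.range (m + 1), bernSum (fun _ : Fin m => x) k ^ 2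
      = ∑ j ∈ Finset.range (m + 1), ((1 - 2 * (1 - (om (m + 1) ^ j).re) * (x * (1 - x))) ^ m
        + (1 - 2 * (1 + (om (m + 1) ^ j).re) * (x * (1 - x))) ^ m) := by
  have hM : 0 < m + 1 := by omega
  have h1 := parseval hM (fun k => bernSum (fun _ : Fin m => x) k)
  have h2 : ∑ k ∈ Finset.range (2 * (m + 1)), bernSum (fun _ : Fin m => x) k ^ 2
      = ∑ k ∈ Finset.range (m + 1), bernSum (fun _ : Fin m => x) k ^ 2 := by
    symm
    apply Finset.sum_subset
    · intro k hk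
      simp only [Finset.mem_range] at hk ⊢
      omega
    · intro k _ hk
      simp only [Finset.mem_range, not_lt] at hk
      rw [bernSum_big m x (by omega)]
      simp
  rw [h2] at h1
  rw [← h1]
  have h3 : ∀ j, ‖∑ k ∈ Finset.range (2 * (m + 1)),
      ((bernSum (fun _ : Fin m => x) k : ℝ) : ℂ) * (om (m + 1) ^ j) ^ k‖ ^ 2
      = (1 - 2 * (1 - (om (m + 1) ^ j).re) * (x * (1 - x))) ^ m := by
    intro j
    rw [gen m _ (by omega), norm_pow, ← pow_mul, mul_comm m 2, pow_mul, norm_aux]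
    · congr 1; ring
    · rw [norm_pow, om_norm hM, one_pow]
  rw [Finset.sum_congr rfl fun j _ => h3 j, two_mul (m + 1), Finset.sum_range_add,
    ← Finset.sum_add_distrib]
  refine Finset.sum_congr rfl fun j _ => ?_
  congr 2
  rw [pow_add, om_half hM]
  simp

end Pool.Agent.Y301.RY
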