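import Pool.Agent.Y301.RY.Two
import Pool.Agent.Y301.RY.Four

set_option autoImplicit false

open Filter Topology
open Pool.Agent.Results.MP_737f38_pr.CriticalValueOne

namespace Pool.Agent.Y301.RY

lemma collision_Fc (n : ℕ) (x : ℝ) :
    ((2 * (n + 1 + 1) : ℕ) : ℝ) *
      ∑ k ∈ Finset.range (n + 1 + 1), bernSum (fun _ : Fin (n + 1) => x) k ^ 2
      = ∑ j ∈ Finset.range (n + 2), Fc (2 * (1 - |(om (n + 2) ^ j).re|)) n x := by
  rw [collision]
  refine Finset.sum_congr rfl fun j _ => ?_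
  unfold Fc Ac
  rcases le_total 0 (om (n + 1 + 1) ^ j).re with h | h
  · rw [abs_of_nonneg h]
    congr 2
    ring
  · rw [abs_of_nonpos h, add_comm]
    congr 2
    · ring
    · ring

theorem collision_logconvex (m : ℕ) (hm : 1 ≤ m) : ConvexOn ℝ (Set.Icc (0:ℝ) 1)
    (fun x => Real.log (∑ k ∈ Finset.range (m + 1), bernSum (fun _ : Fin m => x) k ^ 2)) := by
  obtain ⟨n, rfl⟩ : ∃ n, m = n + 1 := ⟨m - 1, by omega⟩
  have h := sum_logconvex (n + 2) (by omega) (fun j => 2 * (1 - |(om (n + 2) ^ j).re|)) ?_ ?_ n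
  · have h2 := h.add (convexOn_const (-Real.log ((2 * (n + 1 + 1) : ℕ) : ℝ))
      (convex_Icc (0:ℝ) 1))
    refine h2.congr ?_
    intro x hx
    have hN : (0:ℝ) < ((2 * (n + 1 + 1) : ℕ) : ℝ) := by positivity
    have hS : 0 < ∑ k ∈ Finset.range (n + 1 + 1), bernSum (fun _ : Fin (n + 1) => x) k ^ 2 := by
      have h3 := collision_Fc n x
      have h4 : 0 < ∑ j ∈ Finset.range (n + 2), Fc (2 * (1 - |(om (n + 2) ^ j).re|)) n x := by
        refine Finset.sum_pos (fun j _ => Fc_pos ?_ ?_ n hx) ⟨0, by simp⟩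
        · have : |(om (n + 2) ^ j).re| ≤ 1 := by
            refine (Complex.abs_re_le_norm _).trans ?_
            rw [norm_pow, om_norm (by omega), one_pow]
          linarith
        · have := abs_nonneg (om (n + 2) ^ j).re
          linarith
      rw [← h3] at h4
      exact (mul_pos_iff_of_pos_left hN).1 h4
    simp only [Pi.add_apply]
    rw [← collision_Fc, Real.log_mul hN.ne' hS.ne']
    ring
  · intro j
    have : |(om (n + 2) ^ j).re| ≤ 1 := by
      refine (Complex.abs_re_le_norm _).trans ?_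
      rw [norm_pow, om_norm (by omega), one_pow]
    linarith
  · intro j
    have := abs_nonneg (om (n + 2) ^ j).re
    linarith

/-- The order-two entropy of the binomial laws is concave in the parameter. -/
theorem diag_two {m : ℕ} (hm : 1 ≤ m) {a b : ℝ} (ha : a ∈ Set.Icc (0:ℝ) 1)
    (hb : b ∈ Set.Icc (0:ℝ) 1) :
    ConcaveOn ℝ (Set.Icc (0:ℝ) 1) (phi 2 (fun _ : Fin m => a) (fun _ : Fin m => b)) := by
  have hphi : ∀ t, phi 2 (fun _ : Fin m => a) (fun _ : Fin m => b) t = -
      Real.log (∑ k ∈ Finset.range (m + 1), bernSum (fun _ : Fin m => (1 - t) * a + t * b) k ^ 2) := by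
    intro t
    unfold phi renyi
    rw [if_neg (by norm_num)]
    have e : path (fun _ : Fin m => a) (fun _ : Fin m => b) t = fun _ => (1 - t) * a + t * b := rfl
    rw [e]
    simp only [Real.rpow_two]
    norm_num
  have hin : ∀ t ∈ Set.Icc (0:ℝ) 1, (1 - t) * a + t * b ∈ Set.Icc (0:ℝ) 1 := by
    intro t ht
    have := convex_Icc (0:ℝ) 1 ha hb (show 0 ≤ 1 - t by linarith [ht.2]) ht.1 (by ring)
    simpa using this
  refine ⟨convex_Icc _ _, ?_⟩
  intro x hx y hy c d hc hd hcd
  have h := (collision_logconvex m hm).2 (hin x hx) (hin y hy) hc hd hcd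
  have e : c • ((1 - x) * a + x * b) + d • ((1 - y) * a + y * b)
      = (1 - (c • x + d • y)) * a + (c • x + d • y) * b := by
    simp only [smul_eq_mul]
    have : c = 1 - d := by linarith
    rw [this]; ring
  rw [e] at h
  rw [hphi, hphi, hphi]
  simp only [smul_eq_mul] at h ⊢
  linarith

end Pool.Agent.Y301.RY
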