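import Pool.Agent.Results.MP_737f38_pr.CriticalValueOne

set_option autoImplicit false

open Filter Topology Polynomial
open Pool.Agent.Results.MP_737f38_pr.CriticalValueOne

namespace Pool.Agent.Y301.RY

/-! ### Padding by zeros -/

lemma bernSum_coeff {m : ℕ} (p : Fin m → ℝ) (k : ℕ) :
    bernSum p k = (∏ i : Fin m, (C (1 - p i) + C (p i) * X : ℝ[X])).coeff k := by
  rw [bernSum_eq p p k, AA_coeff_zero_prod]

lemma bernSum_cons {m : ℕ} (p : Fin m → ℝ) (k : ℕ) :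
    bernSum (Fin.cons 0 p : Fin (m + 1) → ℝ) k = bernSum p k := by
  rw [bernSum_coeff, bernSum_coeff, Fin.prod_univ_succ]
  simp

lemma bernSum_top {m : ℕ} (p : Fin m → ℝ) : bernSum p (m + 1) = 0 := by
  unfold bernSum
  rw [Finset.powersetCard_eq_empty.2 (by simp), Finset.sum_empty]

lemma path_cons {m : ℕ} (p0 p1 : Fin m → ℝ) (t : ℝ) :
    path (Fin.cons 0 p0 : Fin (m + 1) → ℝ) (Fin.cons 0 p1 : Fin (m + 1) → ℝ) t
      = (Fin.cons 0 (path p0 p1 t) : Fin (m + 1) → ℝ) := by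
  funext i
  refine Fin.cases ?_ (fun j => ?_) i <;> simp [path]

lemma phi_cons {q : ℝ} (hq : 0 < q) (hq1 : q ≠ 1) {m : ℕ} (p0 p1 : Fin m → ℝ) (t : ℝ) :
    phi q (Fin.cons 0 p0 : Fin (m + 1) → ℝ) (Fin.cons 0 p1 : Fin (m + 1) → ℝ) t
      = phi q p0 p1 t := by
  unfold phi renyi
  rw [if_neg hq1, if_neg hq1, Finset.sum_range_succ _ (m + 1), path_cons]
  simp only [bernSum_cons, bernSum_top, Real.zero_rpow hq.ne', add_zero]

/-- For every order above `c` there is a path of Bernoulli sums of exactly `m` variables with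
strictly convex entropy. -/
def Str (m : ℕ) (q : ℝ) : Prop :=
  ∃ p0 p1 : Fin m → ℝ, (∀ i, p0 i ∈ Set.Icc (0:ℝ) 1) ∧ (∀ i, p1 i ∈ Set.Icc (0:ℝ) 1) ∧
    StrictConvexOn ℝ (Set.Icc (0:ℝ) 1) (phi q p0 p1)

lemma str_succ {m : ℕ} {q : ℝ} (hq : 0 < q) (hq1 : q ≠ 1) (h : Str m q) : Str (m + 1) q := by
  obtain ⟨p0, p1, h0, h1, hs⟩ := h
  refine ⟨Fin.cons 0 p0, Fin.cons 0 p1, ?_, ?_, ?_⟩
  · intro i
    refine Fin.cases ?_ (fun j => ?_) i
    · simp
    · simpa using h0 j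
  · intro i
    refine Fin.cases ?_ (fun j => ?_) i
    · simp
    · simpa using h1 j
  · have e : phi q (Fin.cons 0 p0 : Fin (m + 1) → ℝ) (Fin.cons 0 p1 : Fin (m + 1) → ℝ)
        = phi q p0 p1 := funext fun t => phi_cons hq hq1 p0 p1 t
    rw [e]
    exact hs

lemma str_two {q : ℝ} (hq : 1 < q) : Str 2 q := by
  obtain ⟨p, hp, hp1, hcond⟩ := exists_p q hq
  obtain ⟨hC, hpos⟩ := aux_L p q hp hp1 hq hcond
  obtain ⟨hC2, hpos2⟩ := aux_sq _ hC hpos
  obtain ⟨δ0, hδ0, hconv⟩ := aux_convex_near _ hC2 hpos2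
  obtain ⟨δ, hδ, hδle, hδp, hδp1⟩ : ∃ δ > 0, δ ≤ δ0 ∧ δ ≤ p ∧ δ ≤ 1 - p :=
    ⟨min δ0 (min p (1 - p)), by
      have : 0 < 1 - p := by linarith
      positivity, min_le_left _ _, (min_le_right _ _).trans (min_le_left _ _),
      (min_le_right _ _).trans (min_le_right _ _)⟩
  have hsc := hconv δ hδ hδle
  let p0 : Fin 2 → ℝ := ![p + δ, p - δ]
  let p1 : Fin 2 → ℝ := ![p - δ, p + δ]
  have hphi : ∀ t : ℝ, phi q p0 p1 t
      = (1 / (1 - q)) * Real.log (Psi p q ((δ * (1 - 2 * t)) ^ 2)) := by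
    intro t
    have hq1 : q ≠ 1 := by linarith
    unfold phi renyi
    rw [if_neg hq1]
    obtain ⟨e0, e1, e2⟩ := bernSum_two (path p0 p1 t)
    rw [Finset.sum_range_succ, Finset.sum_range_succ, Finset.sum_range_one, e0, e1, e2]
    unfold Psi
    have x0 : path p0 p1 t 0 = p + δ * (1 - 2 * t) := by simp [path, p0, p1]; ring
    have x1 : path p0 p1 t 1 = p - δ * (1 - 2 * t) := by simp [path, p0, p1]; ring
    rw [x0, x1]
    congr 4
    · congr 1; ring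
    · congr 1; ring
    · ring
  have hstrict : StrictConvexOn ℝ (Set.Icc (0:ℝ) 1) (phi q p0 p1) := by
    refine ⟨convex_Icc _ _, ?_⟩
    intro x hx y hy hxy a b ha hb hab
    have hx' : δ * (1 - 2 * x) ∈ Set.Icc (-δ) δ := by
      constructor <;> nlinarith [hx.1, hx.2]
    have hy' : δ * (1 - 2 * y) ∈ Set.Icc (-δ) δ := by
      constructor <;> nlinarith [hy.1, hy.2]
    have hne : δ * (1 - 2 * x) ≠ δ * (1 - 2 * y) := by
      intro h
      apply hxy
      have := mul_left_cancel₀ hδ.ne' h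
      linarith
    have := hsc.2 hx' hy' hne ha hb hab
    rw [hphi, hphi, hphi]
    simp only [smul_eq_mul] at this ⊢
    convert this using 5
    have hb' : b = 1 - a := by linarith
    subst hb'
    ring
  refine ⟨p0, p1, ?_, ?_, hstrict⟩
  · intro i
    fin_cases i
    · constructor <;> simp [p0] <;> linarith
    · constructor <;> simp [p0] <;> linarith
  · intro i
    fin_cases i
    · constructor <;> simp [p1] <;> linarith
    · constructor <;> simp [p1] <;> linarith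

lemma str_ge_two {q : ℝ} (hq : 1 < q) {m : ℕ} (hm : 2 ≤ m) : Str m q := by
  induction m, hm using Nat.le_induction with
  | base => exact str_two hq
  | succ n _ ih => exact str_succ (by linarith) (by linarith) ih

lemma not_affine {f : ℝ → ℝ} (hf : StrictConvexOn ℝ (Set.Icc (0:ℝ) 1) f) :
    ¬ ∃ α β : ℝ, ∀ t ∈ Set.Icc (0:ℝ) 1, f t = α + β * t := by
  rintro ⟨α, β, h⟩
  have i0 : (0:ℝ) ∈ Set.Icc (0:ℝ) 1 := by simp
  have i1 : (1:ℝ) ∈ Set.Icc (0:ℝ) 1 := by simp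
  have := hf.2 i0 i1 (by norm_num) (show (0:ℝ) < 1 / 2 by norm_num)
    (show (0:ℝ) < 1 / 2 by norm_num) (by norm_num)
  simp only [smul_eq_mul] at this
  rw [h 0 (by simp), h 1 (by simp), h (1 / 2 * 0 + 1 / 2 * 1) (by constructor <;> norm_num)] at this
  linarith

lemma not_concave {f : ℝ → ℝ} (hf : StrictConvexOn ℝ (Set.Icc (0:ℝ) 1) f) :
    ¬ ConcaveOn ℝ (Set.Icc (0:ℝ) 1) f := by
  intro hc
  have i0 : (0:ℝ) ∈ Set.Icc (0:ℝ) 1 := by simp
  have i1 : (1:ℝ) ∈ Set.Icc (0:ℝ) 1 := by simp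
  have h1 := hf.2 i0 i1 (by norm_num) (show (0:ℝ) < 1 / 2 by norm_num)
    (show (0:ℝ) < 1 / 2 by norm_num) (by norm_num)
  have h2 := hc.2 i0 i1 (show (0:ℝ) ≤ 1 / 2 by norm_num)
    (show (0:ℝ) ≤ 1 / 2 by norm_num) (by norm_num)
  linarith

end Pool.Agent.Y301.RY
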