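import Pool.Agent.Y301.RY.Bin
import Pool.Agent.Y301.RY.Diag

set_option autoImplicit false

open Filter Topology
open Pool.Agent.Results.MP_737f38_pr.CriticalValueOne

namespace Pool.Agent.Y301.RY

/-! ### Binomial laws, order two -/

lemma pow_ineq (A B A1 B1 A2 B2 : ℝ) (n : ℕ) (hAB : B ≤ A) (hB : 0 ≤ B)
    (hAA : 0 ≤ A * A2 - A1 ^ 2) (hX : 0 ≤ A * B2 + B * A2 - 2 * A1 * B1)
    (hS : 0 ≤ (A * A2 - A1 ^ 2) + (B * B2 - B1 ^ 2) + (A * B2 + B * A2 - 2 * A1 * B1)) :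
    (((n : ℝ) + 1) * (A ^ n * A1 + B ^ n * B1)) ^ 2 ≤
      (((n : ℝ) + 1) * ((n * A ^ (n - 1) * A1 ^ 2 + A ^ n * A2)
        + (n * B ^ (n - 1) * B1 ^ 2 + B ^ n * B2))) * (A ^ (n + 1) + B ^ (n + 1)) := by
  have hA : 0 ≤ A := hB.trans hAB
  have h1 : B ^ n ≤ A ^ n := pow_le_pow_left₀ hB hAB n
  have hBn : 0 ≤ B ^ n := pow_nonneg hB n
  have h2 : B ^ n * B ^ n ≤ A ^ n * A ^ n := mul_le_mul h1 h1 hBn (pow_nonneg hA n)
  have h3 : B ^ n * B ^ n ≤ A ^ n * B ^ n := mul_le_mul_of_nonneg_right h1 hBn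
  have h4 : 0 ≤ (n : ℝ) * (A ^ (n + 1) * B ^ (n - 1) * B1 ^ 2 + B ^ (n + 1) * A ^ (n - 1) * A1 ^ 2
      - 2 * A ^ n * B ^ n * A1 * B1) := by
    rcases n with _ | k
    · simp
    · have e : A ^ (k + 1 + 1) * B ^ (k + 1 - 1) * B1 ^ 2 + B ^ (k + 1 + 1) * A ^ (k + 1 - 1) * A1 ^ 2
          - 2 * A ^ (k + 1) * B ^ (k + 1) * A1 * B1 = (A ^ k * B ^ k) * (A * B1 - B * A1) ^ 2 := by
        rw [Nat.add_sub_cancel]
        ring
      rw [e]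
      positivity
  have h5 : (n : ℝ) * A ^ (n - 1) * A = n * A ^ n := by
    rcases n with _ | k
    · simp
    · rw [Nat.add_sub_cancel]; ring
  have h6 : (n : ℝ) * B ^ (n - 1) * B = n * B ^ n := by
    rcases n with _ | k
    · simp
    · rw [Nat.add_sub_cancel]; ring
  have h7 : (((n * A ^ (n - 1) * A1 ^ 2 + A ^ n * A2)
        + (n * B ^ (n - 1) * B1 ^ 2 + B ^ n * B2))) * (A ^ (n + 1) + B ^ (n + 1))
      - ((n : ℝ) + 1) * (A ^ n * A1 + B ^ n * B1) ^ 2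
      = (A ^ n * A ^ n) * (A * A2 - A1 ^ 2) + (B ^ n * B ^ n) * (B * B2 - B1 ^ 2)
        + (A ^ n * B ^ n) * (A * B2 + B * A2 - 2 * A1 * B1)
        + (n : ℝ) * (A ^ (n + 1) * B ^ (n - 1) * B1 ^ 2 + B ^ (n + 1) * A ^ (n - 1) * A1 ^ 2
      - 2 * A ^ n * B ^ n * A1 * B1) := by
    rw [pow_succ A n, pow_succ B n]
    linear_combination (A ^ n * A1 ^ 2) * h5 + (B ^ n * B1 ^ 2) * h6
  have h8 : 0 ≤ (((n * A ^ (n - 1) * A1 ^ 2 + A ^ n * A2)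
        + (n * B ^ (n - 1) * B1 ^ 2 + B ^ n * B2))) * (A ^ (n + 1) + B ^ (n + 1))
      - ((n : ℝ) + 1) * (A ^ n * A1 + B ^ n * B1) ^ 2 := by
    rw [h7]
    have i1 := mul_le_mul_of_nonneg_right h2 hAA
    have i2 := mul_le_mul_of_nonneg_right h3 hX
    have i3 : 0 ≤ (B ^ n * B ^ n) * ((A * A2 - A1 ^ 2) + (B * B2 - B1 ^ 2)
      + (A * B2 + B * A2 - 2 * A1 * B1)) := mul_nonneg (mul_nonneg hBn hBn) hS
    nlinarith
  have h9 : (0:ℝ) ≤ (n : ℝ) + 1 := by positivity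
  nlinarith [mul_nonneg h9 h8]

/-- `1 - c x (1 - x)` -/
noncomputable def Ac (c x : ℝ) : ℝ := 1 - c * (x * (1 - x))

noncomputable def Fc (c : ℝ) (n : ℕ) (x : ℝ) : ℝ := Ac c x ^ (n + 1) + Ac (4 - c) x ^ (n + 1)

noncomputable def Fc1 (c : ℝ) (n : ℕ) (x : ℝ) : ℝ :=
  ((n : ℝ) + 1) * (Ac c x ^ n * (-(c * (1 - 2 * x))) + Ac (4 - c) x ^ n * (-((4 - c) * (1 - 2 * x))))

noncomputable def Fc2 (c : ℝ) (n : ℕ) (x : ℝ) : ℝ :=
  ((n : ℝ) + 1) * ((n * Ac c x ^ (n - 1) * (-(c * (1 - 2 * x))) ^ 2 + Ac c x ^ n * (2 * c))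
    + (n * Ac (4 - c) x ^ (n - 1) * (-((4 - c) * (1 - 2 * x))) ^ 2
      + Ac (4 - c) x ^ n * (2 * (4 - c))))

lemma Ac_deriv (c x : ℝ) : HasDerivAt (Ac c) (-(c * (1 - 2 * x))) x := by
  unfold Ac
  have h1 : HasDerivAt (fun x : ℝ => x * (1 - x)) (1 * (1 - x) + x * (-1)) x := by
    have h3 : HasDerivAt (fun x : ℝ => 1 - x) (-1) x := by
      simpa using (hasDerivAt_id x).const_sub 1
    exact (hasDerivAt_id x).mul h3
  refine ((h1.const_mul c).const_sub 1).congr_deriv ?_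
  ring

lemma Ac1_deriv (c x : ℝ) : HasDerivAt (fun x => -(c * (1 - 2 * x))) (2 * c) x := by
  have h3 : HasDerivAt (fun x : ℝ => 1 - 2 * x) (-2) x := by
    simpa using ((hasDerivAt_id x).const_mul 2).const_sub 1
  refine ((h3.const_mul c).neg).congr_deriv ?_
  ring

lemma Fc_deriv (c : ℝ) (n : ℕ) (x : ℝ) : HasDerivAt (Fc c n) (Fc1 c n x) x := by
  unfold Fc1
  refine (((Ac_deriv c x).pow (n + 1)).add ((Ac_deriv (4 - c) x).pow (n + 1))).congr_deriv ?_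
  push_cast
  ring

lemma Fc1_deriv (c : ℝ) (n : ℕ) (x : ℝ) : HasDerivAt (Fc1 c n) (Fc2 c n x) x := by
  unfold Fc2
  refine ((((((Ac_deriv c x).pow n).mul (Ac1_deriv c x))).add
    (((Ac_deriv (4 - c) x).pow n).mul (Ac1_deriv (4 - c) x))).const_mul ((n : ℝ) + 1)).congr_deriv ?_
  simp only [Pi.pow_apply]
  ring

lemma Fc_ineq {c : ℝ} (h0 : 0 ≤ c) (h2 : c ≤ 2) (n : ℕ) {x : ℝ} (hx : x ∈ Set.Icc (0:ℝ) 1) :
    Fc1 c n x ^ 2 ≤ Fc2 c n x * Fc c n x := by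
  have hs : 0 ≤ x * (1 - x) := mul_nonneg hx.1 (by linarith [hx.2])
  have hs4 : x * (1 - x) ≤ 1 / 4 := by nlinarith [sq_nonneg (x - 1 / 2)]
  unfold Fc1 Fc2 Fc
  apply pow_ineq
  · unfold Ac; nlinarith
  · unfold Ac; nlinarith
  · unfold Ac
    have : (1 - c * (x * (1 - x))) * (2 * c) - (-(c * (1 - 2 * x))) ^ 2
        = c * (2 - c + 2 * c * (x * (1 - x))) := by ring
    rw [this]
    apply mul_nonneg h0
    nlinarith [mul_nonneg h0 hs]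
  · unfold Ac
    have : (1 - c * (x * (1 - x))) * (2 * (4 - c)) + (1 - (4 - c) * (x * (1 - x))) * (2 * c)
        - 2 * (-(c * (1 - 2 * x))) * (-((4 - c) * (1 - 2 * x)))
        = 2 * (c - 2) ^ 2 + 4 * (c * (4 - c)) * (x * (1 - x)) := by ring
    rw [this]
    have : 0 ≤ c * (4 - c) := mul_nonneg h0 (by linarith)
    positivity
  · unfold Ac
    have : (1 - c * (x * (1 - x))) * (2 * c) - (-(c * (1 - 2 * x))) ^ 2 +
        ((1 - (4 - c) * (x * (1 - x))) * (2 * (4 - c)) - (-((4 - c) * (1 - 2 * x))) ^ 2) +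
        ((1 - c * (x * (1 - x))) * (2 * (4 - c)) + (1 - (4 - c) * (x * (1 - x))) * (2 * c)
        - 2 * (-(c * (1 - 2 * x))) * (-((4 - c) * (1 - 2 * x))))
        = 32 * (x * (1 - x)) := by ring
    rw [this]
    positivity

lemma Fc_pos {c : ℝ} (h0 : 0 ≤ c) (h2 : c ≤ 2) (n : ℕ) {x : ℝ} (hx : x ∈ Set.Icc (0:ℝ) 1) :
    0 < Fc c n x := by
  have hs : 0 ≤ x * (1 - x) := mul_nonneg hx.1 (by linarith [hx.2])
  have hs4 : x * (1 - x) ≤ 1 / 4 := by nlinarith [sq_nonneg (x - 1 / 2)]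
  have h3 : 0 < Ac c x := by unfold Ac; nlinarith
  have h4 : 0 ≤ Ac (4 - c) x := by unfold Ac; nlinarith
  unfold Fc
  positivity

/-- sums of the functions `Fc` are log-convex -/
theorem sum_logconvex (M : ℕ) (hM : 0 < M) (c : ℕ → ℝ) (h0 : ∀ j, 0 ≤ c j) (h2 : ∀ j, c j ≤ 2)
    (n : ℕ) : ConvexOn ℝ (Set.Icc (0:ℝ) 1)
      (fun x => Real.log (∑ j ∈ Finset.range M, Fc (c j) n x)) := by
  have hd : ∀ x : ℝ, HasDerivAt (fun x => ∑ j ∈ Finset.range M, Fc (c j) n x)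
      (∑ j ∈ Finset.range M, Fc1 (c j) n x) x := fun x =>
    HasDerivAt.fun_sum fun j _ => Fc_deriv (c j) n x
  apply logconvex (f1 := fun x => ∑ j ∈ Finset.range M, Fc1 (c j) n x)
    (f2 := fun x => ∑ j ∈ Finset.range M, Fc2 (c j) n x)
  · exact fun x _ => (hd x).continuousAt.continuousWithinAt
  · intro x hx
    exact Finset.sum_pos (fun j _ => Fc_pos (h0 j) (h2 j) n hx) ⟨0, Finset.mem_range.2 hM⟩
  · exact fun x _ => hd x
  · exact fun x _ => HasDerivAt.fun_sum fun j _ => Fc1_deriv (c j) n x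
  · intro x hx
    have hx' := Set.Ioo_subset_Icc_self hx
    have hp : ∀ j, 0 < Fc (c j) n x := fun j => Fc_pos (h0 j) (h2 j) n hx'
    have hi : ∀ j, Fc1 (c j) n x ^ 2 ≤ Fc2 (c j) n x * Fc (c j) n x :=
      fun j => Fc_ineq (h0 j) (h2 j) n hx'
    have hp2 : ∀ j, 0 ≤ Fc2 (c j) n x := by
      intro j
      by_contra h
      have := mul_neg_of_neg_of_pos (not_le.1 h) (hp j)
      have := hi j
      have := sq_nonneg (Fc1 (c j) n x)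
      linarith
    exact Finset.sum_sq_le_sum_mul_sum_of_sq_le_mul _ (fun j _ => hp2 j) (fun j _ => (hp j).le)
      (fun j _ => hi j)

end Pool.Agent.Y301.RY
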